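import Pool.Agent.V8H87.EB.Br.QE
import Pool.Agent.V8H87.EB.AN3
import Pool.Agent.V8H87.EB.Tow

/-!
# The theorem of Brauer on induced characters
-/

set_option autoImplicit false

open scoped Classical

namespace Pool.Agent.V8H87.EB.Br

open Finset

/-- `H` is elementary: the product of a cyclic group of order prime to `p` and a `p`-group. -/
def Elem {G : Type} [Group G] (H : Subgroup G) : Prop :=
  ∃ (p : ℕ) (C P : Subgroup G), p.Prime ∧ IsCyclic C ∧ (Nat.card C).Coprime p ∧ IsPGroup p P ∧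
    (∀ c ∈ C, ∀ u ∈ P, c * u = u * c) ∧ C ⊔ P = H

lemma Elem.map {G G' : Type} [Group G] [Group G'] (f : G →* G') (hf : Function.Injective f)
    {H : Subgroup G} (hH : Elem H) : Elem (H.map f) := by
  obtain ⟨p, C, P, hp, hcyc, hcop, hP, hcomm, hsup⟩ := hH
  refine ⟨p, C.map f, P.map f, hp, ?_, ?_, hP.map f, ?_, ?_⟩
  · exact isCyclic_of_surjective (C.equivMapOfInjective f hf) (C.equivMapOfInjective f hf).surjective
  · rwa [← Nat.card_congr (C.equivMapOfInjective f hf).toEquiv]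
  · rintro _ ⟨c, hc, rfl⟩ _ ⟨u, hu, rfl⟩
    rw [← map_mul, hcomm c hc u hu, map_mul]
  · rw [← Subgroup.map_sup, hsup]

section Span

variable {G : Type} [Group G] [Fintype G] {E : Type} [Field E] {F : Subgroup G → Prop}

/-- integral combinations of characters induced from linear characters of subgroups with `F` -/
def Sp {G : Type} [Group G] [Fintype G] {E : Type} [Field E] (F : Subgroup G → Prop)
    (f : G → E) : Prop :=
  ∃ (ι : Type) (_ : Fintype ι) (W : ι → Subgroup G) (φ : ∀ i, W i →* Eˣ) (n : ι → ℤ),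
    (∀ i, F (W i)) ∧ ∀ g, f g = ∑ i, (n i : E) * ind (W i) (φ i) g

lemma Sp.zero : Sp F (fun _ => (0 : E)) :=
  ⟨Empty, inferInstance, fun e => e.elim, fun e => e.elim, fun e => e.elim, fun e => e.elim,
    by simp⟩

lemma Sp.single {W : Subgroup G} (hW : F W) (φ : W →* Eˣ) : Sp F (fun g => ind W φ g) :=
  ⟨Unit, inferInstance, fun _ => W, fun _ => φ, fun _ => 1, fun _ => hW, fun g => by simp⟩

lemma Sp.add {f f' : G → E} (h : Sp F f) (h' : Sp F f') : Sp F (fun g => f g + f' g) := by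
  obtain ⟨ι, _, W, φ, m, h1, h2⟩ := h
  obtain ⟨ι', _, W', φ', m', h1', h2'⟩ := h'
  refine ⟨ι ⊕ ι', inferInstance, Sum.elim W W', fun i => match i with
    | Sum.inl i => φ i
    | Sum.inr i => φ' i, Sum.elim m m', ?_, ?_⟩
  · rintro (i | i)
    · exact h1 i
    · exact h1' i
  · intro g
    change f g + f' g = _
    rw [Fintype.sum_sum_type, h2, h2']
    rfl

lemma Sp.neg {f : G → E} (h : Sp F f) : Sp F (fun g => - f g) := by
  obtain ⟨ι, _, W, φ, m, h1, h2⟩ := h
  refine ⟨ι, inferInstance, W, φ, fun i => - m i, h1, fun g => ?_⟩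
  change - f g = _
  rw [h2, ← Finset.sum_neg_distrib]
  refine Finset.sum_congr rfl fun i _ => ?_
  rw [Int.cast_neg, neg_mul]

lemma Sp.sum {ι : Type} (s : Finset ι) (f : ι → G → E) (h : ∀ i ∈ s, Sp F (f i)) :
    Sp F (fun g => ∑ i ∈ s, f i g) := by
  induction s using Finset.induction_on with
  | empty => simpa using Sp.zero
  | insert a s ha ih =>
    have h1 := (h a (Finset.mem_insert_self a s)).add
      (ih fun i hi => h i (Finset.mem_insert_of_mem hi))
    simpa [Finset.sum_insert ha] using h1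

lemma ind_twist (W : Subgroup G) (φ : W →* Eˣ) (χ : G →* Eˣ) (u : G) :
    ind W (φ * χ.comp W.subtype) u = (χ u : E) * ind W φ u := by
  unfold ind
  rw [mul_left_comm]
  congr 1
  rw [Finset.mul_sum]
  refine Finset.sum_congr rfl fun x _ => ?_
  unfold ext
  by_cases h : x⁻¹ * u * x ∈ W
  · rw [dif_pos h, dif_pos h, MonoidHom.mul_apply, Units.val_mul, mul_comm]
    congr 1
    change ((χ (x⁻¹ * u * x) : Eˣ) : E) = _
    rw [map_mul, map_mul, map_inv, mul_comm, mul_inv_cancel_left]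
  · rw [dif_neg h, dif_neg h, mul_zero]

end Span

section

variable {G : Type} [Group G] [Fintype G] {E : Type} [Field E] [CharZero E]

/-- the projection formula -/
lemma proj (M : Subgroup G) (χ : M →* Eˣ) (h : Sp (E := E) (Elem (G := M)) (fun _ => 1)) :
    Sp (Elem (G := G)) (fun g => ind M χ g) := by
  obtain ⟨ι, _, W, φ, n, h1, h2⟩ := h
  refine ⟨ι, inferInstance, fun i => (W i).map M.subtype, fun i =>
    (φ i * χ.comp (W i).subtype).comp
      ((W i).equivMapOfInjective M.subtype M.subtype_injective).symm.toMonoidHom, n,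
    fun i => (h1 i).map M.subtype M.subtype_injective, fun g => ?_⟩
  have hst : ∀ i, ind ((W i).map M.subtype) ((φ i * χ.comp (W i).subtype).comp
      ((W i).equivMapOfInjective M.subtype M.subtype_injective).symm.toMonoidHom) g =
      (Nat.card M : E)⁻¹ * ∑ x : G,
        if h : x⁻¹ * g * x ∈ M then ind (W i) (φ i * χ.comp (W i).subtype) ⟨x⁻¹ * g * x, h⟩
          else 0 := by
    intro i
    refine ind_stages M (W i) _ _ _ rfl ?_ g
    intro x hx hx' hx''
    change (φ i * χ.comp (W i).subtype) (((W i).equivMapOfInjective M.subtype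
      M.subtype_injective).symm ⟨x, hx⟩) = _
    congr 1
    rw [MulEquiv.symm_apply_eq]
    exact Subtype.ext rfl
  simp_rw [hst]
  have h3 : ∀ i, (n i : E) * ((Nat.card M : E)⁻¹ * ∑ x : G,
        if h : x⁻¹ * g * x ∈ M then ind (W i) (φ i * χ.comp (W i).subtype) ⟨x⁻¹ * g * x, h⟩
          else 0) = (Nat.card M : E)⁻¹ * ∑ x : G,
        if h : x⁻¹ * g * x ∈ M then (χ ⟨x⁻¹ * g * x, h⟩ : E) *
          ((n i : E) * ind (W i) (φ i) ⟨x⁻¹ * g * x, h⟩) else 0 := by
    intro i
    rw [mul_left_comm, Finset.mul_sum]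
    congr 1
    refine Finset.sum_congr rfl fun x _ => ?_
    by_cases h : x⁻¹ * g * x ∈ M
    · rw [dif_pos h, dif_pos h, ind_twist, mul_left_comm]
    · rw [dif_neg h, dif_neg h, mul_zero]
  rw [Finset.sum_congr rfl fun i _ => h3 i, ← Finset.mul_sum, Finset.sum_comm]
  change (Nat.card M : E)⁻¹ * ∑ x : G, ext M χ (x⁻¹ * g * x) = _
  congr 1
  refine Finset.sum_congr rfl fun x _ => ?_
  unfold ext
  by_cases h : x⁻¹ * g * x ∈ M
  · simp only [dif_pos h]
    rw [← Finset.mul_sum, ← h2, mul_one]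
  · simp only [dif_neg h, Finset.sum_const_zero]

/-- a character of a cyclic group which is invariant under a group of coprime order and trivial on
the fixed points is trivial -/
lemma coprime_action (C P : Subgroup G) [hCn : C.Normal] (hCc : ∀ a ∈ C, ∀ b ∈ C, a * b = b * a)
    (hcop : (Nat.card C).Coprime (Nat.card P)) (ψ : C →* Eˣ)
    (hinv : ∀ u ∈ P, AN.cj C u ψ = ψ)
    (hfix : ∀ (c : G) (hc : c ∈ C), (∀ u ∈ P, c * u = u * c) → ψ ⟨c, hc⟩ = 1) : ψ = 1 := by
  have hconj : ∀ (u : P) (c : C), (u : G)⁻¹ * c * u ∈ C := by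
    intro u c
    simpa using hCn.conj_mem c c.2 (u : G)⁻¹
  ext c
  change ((ψ c : Eˣ) : E) = 1
  letI : CommGroup C := { (inferInstance : Group C) with
    mul_comm := fun a b => Subtype.ext (hCc a a.2 b b.2) }
  let nc : C := ∏ u : P, (⟨(u : G)⁻¹ * c * u, hconj u c⟩ : C)
  have hnc : ∀ v ∈ P, (nc : G) * v = v * nc := by
    intro v hv
    have h1 : (⟨v⁻¹ * nc * v, by simpa using hCn.conj_mem (nc : G) nc.2 v⁻¹⟩ : C) = nc := by
      let f : C →* C :=
        { toFun := fun a => ⟨v⁻¹ * a * v, by simpa using hCn.conj_mem (a : G) a.2 v⁻¹⟩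
          map_one' := Subtype.ext (by simp)
          map_mul' := fun a b => Subtype.ext (by simp [mul_assoc]) }
      change f nc = nc
      simp only [nc]
      rw [map_prod]
      refine Eq.trans (Finset.prod_congr rfl fun u _ => ?_)
        (Equiv.prod_comp (Equiv.mulRight (⟨v, hv⟩ : P))
          (fun u : P => (⟨(u : G)⁻¹ * c * u, hconj u c⟩ : C)))
      apply Subtype.ext
      change v⁻¹ * ((u : G)⁻¹ * c * u) * v = ((u : G) * v)⁻¹ * c * (u * v)
      group
    have h2 : v⁻¹ * (nc : G) * v = nc := congrArg Subtype.val h1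
    calc (nc : G) * v = v * (v⁻¹ * nc * v) := by group
      _ = v * nc := by rw [h2]
  have h1 : ψ nc = (ψ c) ^ (Nat.card P) := by
    simp only [nc]
    rw [map_prod]
    have h2 : ∀ u : P, ψ ⟨(u : G)⁻¹ * c * u, hconj u c⟩ = ψ c := by
      intro u
      have h3 := DFunLike.congr_fun (hinv u u.2) c
      exact h3
    rw [Finset.prod_congr rfl fun u _ => h2 u, Finset.prod_const, Finset.card_univ,
      Nat.card_eq_fintype_card]
  have h2 : ψ nc = 1 := hfix nc nc.2 hnc
  have h3 : (ψ c) ^ (Nat.card C) = 1 := by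
    rw [← map_pow, pow_card_eq_one', map_one]
  have h4 : ψ c = 1 := by
    rw [h2] at h1
    have h5 := orderOf_dvd_of_pow_eq_one h1.symm
    have h6 := orderOf_dvd_of_pow_eq_one h3
    have h7 := Nat.dvd_gcd h6 h5
    rw [hcop] at h7
    exact orderOf_eq_one_iff.1 (Nat.dvd_one.1 h7)
  rw [h4, Units.val_one]

/-- quasi-elementary groups -/
theorem quasi [IsAlgClosed E] : ∀ (n : ℕ) (G : Type) [Group G] [Fintype G], Nat.card G = n →
    QE (⊤ : Subgroup G) → Sp (E := E) (Elem (G := G)) (fun _ => 1) := by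
  intro n
  induction n using Nat.strong_induction_on with
  | _ n ih =>
  intro G _ _ hcard hQE
  obtain ⟨p, C, hp, -, hcyc, hcop, hn, hj⟩ := hQE
  haveI : Fact p.Prime := ⟨hp⟩
  haveI hCn : C.Normal := ⟨fun c hc g => hn g (Subgroup.mem_top g) c hc⟩
  have hCc : ∀ a ∈ C, ∀ b ∈ C, a * b = b * a := by
    intro a ha b hb
    obtain ⟨g, hg⟩ := hcyc.exists_generator
    obtain ⟨i, hi⟩ := hg ⟨a, ha⟩
    obtain ⟨j, hj'⟩ := hg ⟨b, hb⟩
    have h1 := (Commute.refl g).zpow_zpow i j
    have h2 : (⟨a, ha⟩ : C) * ⟨b, hb⟩ = ⟨b, hb⟩ * ⟨a, ha⟩ := by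
      rw [← hi, ← hj']
      exact h1
    exact congrArg Subtype.val h2
  have hQp : IsPGroup p (G ⧸ C) := by
    intro q
    obtain ⟨g, rfl⟩ := QuotientGroup.mk_surjective q
    obtain ⟨j, hj'⟩ := hj g (Subgroup.mem_top g)
    exact ⟨j, by rw [← QuotientGroup.mk_pow, QuotientGroup.eq_one_iff]; exact hj'⟩
  obtain ⟨m, hm⟩ := IsPGroup.iff_card.1 hQp
  have hcop' : (Nat.card C).Coprime C.index := by
    rw [Subgroup.index, hm]
    exact hcop.pow_right m
  obtain ⟨P, hP⟩ := Subgroup.exists_right_complement'_of_coprime hcop'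
  have hdisj : ∀ x ∈ C, x ∈ P → x = 1 := fun x hx hx' => Subgroup.disjoint_def.1 hP.disjoint hx hx'
  have hPp : IsPGroup p P := by
    rintro ⟨u, hu⟩
    obtain ⟨j, hj'⟩ := hj u (Subgroup.mem_top u)
    exact ⟨j, Subtype.ext (hdisj _ hj' (P.pow_mem hu _))⟩
  have hsup : C ⊔ P = ⊤ := hP.sup_eq_top
  -- the elementary subgroup
  let Z : Subgroup G :=
    { carrier := {c | c ∈ C ∧ ∀ u ∈ P, c * u = u * c}
      one_mem' := ⟨C.one_mem, fun u _ => by rw [one_mul, mul_one]⟩
      mul_mem' := by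
        rintro a b ⟨ha, ha'⟩ ⟨hb, hb'⟩
        exact ⟨C.mul_mem ha hb, fun u hu => by rw [mul_assoc, hb' u hu, ← mul_assoc, ha' u hu,
          mul_assoc]⟩
      inv_mem' := by
        rintro a ⟨ha, ha'⟩
        refine ⟨C.inv_mem ha, fun u hu => ?_⟩
        rw [inv_mul_eq_iff_eq_mul, ← mul_assoc, ha' u hu, mul_inv_cancel_right] }
  have hZC : Z ≤ C := fun x hx => hx.1
  have hZcyc : IsCyclic Z := isCyclic_of_injective (Subgroup.inclusion hZC)
    (Subgroup.inclusion_injective _)
  have hElem : Elem (Z ⊔ P) := ⟨p, Z, P, hp, hZcyc,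
    Nat.Coprime.coprime_dvd_left (Subgroup.card_dvd_of_le hZC) hcop, hPp, fun c hc u hu => hc.2 u hu,
    rfl⟩
  haveI : Finite (C →* Eˣ) := AN.finite_hom E (fun a b : C => Subtype.ext (hCc a a.2 b b.2))
  letI : Fintype (C →* Eˣ) := Fintype.ofFinite _
  letI act := AN.uact C (Z ⊔ P) E
  have hdec := fun g => AN.decomp_explicit (E := E) C hCc (Z ⊔ P) 1 g
  have hone : (1 : C →* Eˣ) ∈ AN.XX C (Z ⊔ P) (1 : (Z ⊔ P : Subgroup G) →* Eˣ) :=
    fun _ _ _ => rfl
  have hcj1 : ∀ u : G, AN.cj C u (1 : C →* Eˣ) = 1 := fun u => rfl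
  -- the orbit of the trivial character
  have hout : Quotient.out (Quotient.mk'' (1 : C →* Eˣ) :
      MulAction.orbitRel.Quotient (Z ⊔ P : Subgroup G) (C →* Eˣ)) = 1 := by
    have h1 : Quotient.out (Quotient.mk'' (1 : C →* Eˣ) :
      MulAction.orbitRel.Quotient (Z ⊔ P : Subgroup G) (C →* Eˣ)) ∈
        MulAction.orbit (Z ⊔ P : Subgroup G) (1 : C →* Eˣ) := by
      rw [← MulAction.orbitRel_apply]
      apply Quotient.exact
      rw [Quotient.out_eq]
    obtain ⟨u, hu⟩ := h1
    rw [← hu]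
    exact hcj1 u
  let ω₁ : {ω : MulAction.orbitRel.Quotient (Z ⊔ P : Subgroup G) (C →* Eˣ) //
      Quotient.out ω ∈ AN.XX C (Z ⊔ P) (1 : (Z ⊔ P : Subgroup G) →* Eˣ)} :=
    ⟨Quotient.mk'' 1, by rw [hout]; exact hone⟩
  have hterm1 : ∀ (ω : {ω : MulAction.orbitRel.Quotient (Z ⊔ P : Subgroup G) (C →* Eˣ) //
      Quotient.out ω ∈ AN.XX C (Z ⊔ P) (1 : (Z ⊔ P : Subgroup G) →* Eˣ)}),
      Quotient.out ω.1 = 1 → ∀ g, ind (AN.St C (Z ⊔ P) (Quotient.out ω.1) ⊔ C) (AN.ph ω.2) g =
        (1 : E) := by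
    intro ω hω g
    have hall : ∀ y : G, ext (AN.St C (Z ⊔ P) (Quotient.out ω.1) ⊔ C) (AN.ph ω.2) y = (1 : E) := by
      intro y
      have hy : y ∈ C ⊔ P := by rw [hsup]; exact Subgroup.mem_top y
      rw [sup_comm] at hy
      obtain ⟨u, hu, b, hb, rfl⟩ := Subgroup.mem_sup_of_normal_right.1 hy
      have hu' : u ∈ Z ⊔ P := (le_sup_right : P ≤ Z ⊔ P) hu
      rw [AN.ext_ph hCc ω.2 hu' hb, hω, if_pos (hcj1 u)]
      simp
    have htop : (Nat.card (AN.St C (Z ⊔ P) (Quotient.out ω.1) ⊔ C : Subgroup G) : E) =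
        Nat.card G := by
      have : (AN.St C (Z ⊔ P) (Quotient.out ω.1) ⊔ C : Subgroup G) = ⊤ := by
        rw [eq_top_iff]
        intro y _
        have h1 := hall y
        unfold ext at h1
        by_contra h2
        rw [dif_neg h2] at h1
        exact zero_ne_one h1
      rw [this, Subgroup.card_top]
    unfold ind
    rw [htop, Finset.sum_congr rfl fun x _ => hall _, Finset.sum_const, nsmul_eq_mul, mul_one,
      Finset.card_univ, ← Nat.card_eq_fintype_card]
    exact inv_mul_cancel₀ (Nat.cast_ne_zero.2 Nat.card_pos.ne')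
  have hterm2 : ∀ (ω : {ω : MulAction.orbitRel.Quotient (Z ⊔ P : Subgroup G) (C →* Eˣ) //
      Quotient.out ω ∈ AN.XX C (Z ⊔ P) (1 : (Z ⊔ P : Subgroup G) →* Eˣ)}),
      Quotient.out ω.1 ≠ 1 → Sp (Elem (G := G)) (fun g =>
        ind (AN.St C (Z ⊔ P) (Quotient.out ω.1) ⊔ C) (AN.ph ω.2) g) := by
    intro ω hω
    apply proj
    have hne : (AN.St C (Z ⊔ P) (Quotient.out ω.1) ⊔ C : Subgroup G) ≠ ⊤ := by
      intro htop
      apply hω
      refine coprime_action C P hCc ?_ (Quotient.out ω.1) ?_ ?_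
      · obtain ⟨m', hm'⟩ := IsPGroup.iff_card.1 hPp
        rw [hm']
        exact hcop.pow_right m'
      · intro u hu
        have h1 : u ∈ (AN.St C (Z ⊔ P) (Quotient.out ω.1) ⊔ C : Subgroup G) := by
          rw [htop]
          exact Subgroup.mem_top u
        have h2 := (AN.mem_W_iff (A := C) (U := Z ⊔ P) hCc ((le_sup_right : P ≤ Z ⊔ P) hu)
          C.one_mem).1 (by rw [mul_one]; exact h1)
        exact h2
      · intro c hc hcu
        exact ω.2 c hc ((le_sup_left : Z ≤ Z ⊔ P) ⟨hc, hcu⟩)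
    refine ih (Nat.card (AN.St C (Z ⊔ P) (Quotient.out ω.1) ⊔ C : Subgroup G)) ?_ _ rfl ?_
    · rw [← hcard]
      refine lt_of_le_of_ne (Nat.le_of_dvd Nat.card_pos (Subgroup.card_subgroup_dvd_card _)) ?_
      intro h
      exact hne (Subgroup.eq_top_of_card_eq _ h)
    · have h1 : QE (⊤ : Subgroup G) := ⟨p, C, hp, le_top, hcyc, hcop, hn, hj⟩
      have h2 := h1.comap (AN.St C (Z ⊔ P) (Quotient.out ω.1) ⊔ C : Subgroup G).subtype
        (Subgroup.subtype_injective _)
      rwa [Subgroup.comap_top] at h2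
  have hfinal : ∀ g : G, (1 : E) = ind (Z ⊔ P) (1 : (Z ⊔ P : Subgroup G) →* Eˣ) g +
      - ∑ ω ∈ Finset.univ.erase ω₁,
        ind (AN.St C (Z ⊔ P) (Quotient.out ω.1) ⊔ C) (AN.ph ω.2) g := by
    intro g
    have h1 := hdec g
    have h2 := Finset.add_sum_erase Finset.univ (fun ω : {ω : MulAction.orbitRel.Quotient
      (Z ⊔ P : Subgroup G) (C →* Eˣ) // Quotient.out ω ∈ AN.XX C (Z ⊔ P)
        (1 : (Z ⊔ P : Subgroup G) →* Eˣ)} =>
        ind (AN.St C (Z ⊔ P) (Quotient.out ω.1) ⊔ C) (AN.ph ω.2) g) (Finset.mem_univ ω₁)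
    have h3 := hterm1 ω₁ hout g
    simp only [h3] at h2
    rw [h1]
    change (1 : E) = (∑ ω : {ω : MulAction.orbitRel.Quotient
      (Z ⊔ P : Subgroup G) (C →* Eˣ) // Quotient.out ω ∈ AN.XX C (Z ⊔ P)
        (1 : (Z ⊔ P : Subgroup G) →* Eˣ)},
        ind (AN.St C (Z ⊔ P) (Quotient.out ω.1) ⊔ C) (AN.ph ω.2) g) + _
    rw [← h2]
    ring
  have hS := (Sp.single (E := E) hElem (1 : (Z ⊔ P : Subgroup G) →* Eˣ)).add
    (Sp.sum (Finset.univ.erase ω₁) (fun ω g =>
      ind (AN.St C (Z ⊔ P) (Quotient.out ω.1) ⊔ C) (AN.ph ω.2) g) (by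
        intro ω hω
        apply hterm2
        intro h
        apply (Finset.mem_erase.1 hω).1
        apply Subtype.ext
        rw [← Quotient.out_eq ω.1, h])).neg
  obtain ⟨ι, _, W, φ, k, h1, h2⟩ := hS
  exact ⟨ι, inferInstance, W, φ, k, h1, fun g => by rw [← h2 g]; exact hfinal g⟩

/-- **The theorem of Brauer** for the trivial character. -/
theorem brauer_one [IsAlgClosed E] (G : Type) [Group G] [Fintype G] :
    Sp (E := E) (Elem (G := G)) (fun _ => 1) := by
  have key : ∀ f ∈ AddSubgroup.closure {f : G → ℤ | ∃ H : Subgroup G, QE H ∧ f = pc H},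
      Sp (E := E) (Elem (G := G)) (fun g => (f g : E)) := by
    intro f hf
    induction hf using AddSubgroup.closure_induction with
    | mem f hf =>
      obtain ⟨H, hH, rfl⟩ := hf
      have h1 : Sp (E := E) (Elem (G := H)) (fun _ => 1) := by
        refine quasi (Nat.card H) H rfl ?_
        have h2 := hH.comap H.subtype H.subtype_injective
        have h3 : H.comap H.subtype = ⊤ := by
          rw [eq_top_iff]
          intro x _
          exact x.2
        rwa [h3] at h2
      have h2 := proj H (1 : H →* Eˣ) h1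
      simp_rw [ind_one] at h2
      exact h2
    | zero => simpa using Sp.zero
    | add a b _ _ ha hb =>
      have := ha.add hb
      simpa using this
    | neg a _ ha =>
      have := ha.neg
      simpa using this
  have := key 1 solomon
  simpa using this

/-- **The theorem of Brauer.** Every character induced from a linear character of a subgroup is an
integral combination of characters induced from linear characters of elementary subgroups. -/
theorem brauer [IsAlgClosed E] (U : Subgroup G) (χ : U →* Eˣ) :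
    Sp (Elem (G := G)) (fun g => ind U χ g) :=
  proj U χ (brauer_one U)

end

end Pool.Agent.V8H87.EB.Br
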