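import Pool.Agent.V8H87.EB.Defs

/-!
# Permutation characters and the lemma of Banaschewski
-/

set_option autoImplicit false

open scoped Classical

namespace Pool.Agent.V8H87.EB.Br

open Finset

variable {G : Type} [Group G] [Fintype G]

/-- the number of fixed points on `G / H` -/
noncomputable def pc (H : Subgroup G) (g : G) : ℤ := Nat.card {q : G ⧸ H // g • q = q}

/-- fixed points on a `G`-set -/
lemma fix_sum {X : Type} [Fintype X] [MulAction G X] (g : G) :
    (Nat.card {x : X // g • x = x} : ℤ) =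
      ∑ ω : MulAction.orbitRel.Quotient G X, pc (MulAction.stabilizer G (Quotient.out ω)) g := by
  have h1 : (Nat.card {x : X // g • x = x} : ℤ) =
      ∑ ω : MulAction.orbitRel.Quotient G X, (Nat.card {x : X // g • x = x ∧
        (Quotient.mk'' x : MulAction.orbitRel.Quotient G X) = ω} : ℤ) := by
    rw [Nat.card_eq_fintype_card, Fintype.card_subtype]
    rw [Finset.card_eq_sum_card_fiberwise (f := fun x =>
      (Quotient.mk'' x : MulAction.orbitRel.Quotient G X)) (t := Finset.univ)
        (fun x _ => Finset.mem_coe.2 (Finset.mem_univ _))]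
    push_cast
    refine Finset.sum_congr rfl fun ω _ => ?_
    rw [Nat.card_eq_fintype_card, Fintype.card_subtype, Finset.filter_filter]
  rw [h1]
  refine Finset.sum_congr rfl fun ω _ => ?_
  unfold pc
  congr 1
  symm
  have hout : ∀ y : G, (Quotient.mk'' (y • Quotient.out ω) : MulAction.orbitRel.Quotient G X) = ω := by
    intro y
    have h3 : (Quotient.mk'' (y • Quotient.out ω) : MulAction.orbitRel.Quotient G X) =
        Quotient.mk'' (Quotient.out ω) :=
      Quotient.sound (MulAction.orbitRel_apply.2 (MulAction.mem_orbit _ _))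
    rw [h3]
    exact Quotient.out_eq ω
  refine Nat.card_congr (Equiv.ofBijective (fun q : {q : G ⧸ MulAction.stabilizer G (Quotient.out ω) //
    g • q = q} => (⟨MulAction.ofQuotientStabilizer G (Quotient.out ω) q.1, ?_, ?_⟩ :
      {x : X // g • x = x ∧ (Quotient.mk'' x : MulAction.orbitRel.Quotient G X) = ω})) ⟨?_, ?_⟩)
  · rw [← MulAction.ofQuotientStabilizer_smul, q.2]
  · obtain ⟨y, hy⟩ := QuotientGroup.mk_surjective q.1
    rw [← hy, MulAction.ofQuotientStabilizer_mk]
    exact hout y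
  · intro q q' h
    apply Subtype.ext
    exact MulAction.injective_ofQuotientStabilizer G (Quotient.out ω) (congrArg Subtype.val h)
  · rintro ⟨x, hx, hx'⟩
    have h4 : x ∈ MulAction.orbit G (Quotient.out ω) := by
      rw [← MulAction.orbitRel_apply]
      apply Quotient.exact
      rw [Quotient.out_eq]
      exact hx'
    obtain ⟨y, rfl⟩ := h4
    refine ⟨⟨(y : G ⧸ MulAction.stabilizer G (Quotient.out ω)), ?_⟩, ?_⟩
    · apply MulAction.injective_ofQuotientStabilizer G (Quotient.out ω)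
      rw [MulAction.ofQuotientStabilizer_smul, MulAction.ofQuotientStabilizer_mk]
      exact hx
    · apply Subtype.ext
      exact MulAction.ofQuotientStabilizer_mk G (Quotient.out ω) y

/-- products of permutation characters -/
lemma pc_mul (H K : Subgroup G) (g : G) : pc H g * pc K g =
    ∑ ω : MulAction.orbitRel.Quotient G ((G ⧸ H) × (G ⧸ K)),
      pc (MulAction.stabilizer G (Quotient.out ω)) g := by
  rw [← fix_sum]
  unfold pc
  rw [← Nat.cast_mul, ← Nat.card_prod]
  congr 1
  refine Nat.card_congr ⟨fun p => ⟨(p.1.1, p.2.1), Prod.ext p.1.2 p.2.2⟩,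
    fun x => (⟨x.1.1, congrArg Prod.fst x.2⟩, ⟨x.1.2, congrArg Prod.snd x.2⟩), ?_, ?_⟩
  · rintro ⟨⟨_, _⟩, ⟨_, _⟩⟩
    rfl
  · rintro ⟨⟨_, _⟩, _⟩
    rfl

/-- permutation characters as induced characters -/
lemma ind_one {E : Type} [Field E] [CharZero E] (H : Subgroup G) (g : G) :
    ind H (1 : H →* Eˣ) g = (pc H g : E) := by
  have hH : (Nat.card H : E) ≠ 0 := Nat.cast_ne_zero.2 Nat.card_pos.ne'
  unfold ind pc
  rw [inv_mul_eq_iff_eq_mul₀ hH]
  have h1 : ∀ x : G, ext H (1 : H →* Eˣ) (x⁻¹ * g * x) =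
      if g • (x : G ⧸ H) = (x : G ⧸ H) then 1 else 0 := by
    intro x
    have h2 : g • (x : G ⧸ H) = (x : G ⧸ H) ↔ x⁻¹ * g * x ∈ H := by
      rw [MulAction.Quotient.smul_coe, smul_eq_mul, eq_comm, QuotientGroup.eq, mul_assoc]
    unfold ext
    by_cases h : x⁻¹ * g * x ∈ H
    · rw [dif_pos h, if_pos (h2.2 h)]
      simp
    · rw [dif_neg h, if_neg (fun h3 => h (h2.1 h3))]
  rw [Finset.sum_congr rfl fun x _ => h1 x,
    ← Finset.sum_fiberwise Finset.univ (fun x : G => (x : G ⧸ H))]
  have h3 : ∀ q : G ⧸ H, ∑ x ∈ Finset.univ.filter (fun x : G => (x : G ⧸ H) = q),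
      (if g • (x : G ⧸ H) = (x : G ⧸ H) then (1 : E) else 0) =
        (Nat.card H : E) * (if g • q = q then 1 else 0) := by
    intro q
    rw [Finset.sum_congr rfl (g := fun _ => if g • q = q then (1 : E) else 0) (by
      intro x hx
      rw [(Finset.mem_filter.1 hx).2]), Finset.sum_const, nsmul_eq_mul]
    congr 2
    obtain ⟨y, rfl⟩ := QuotientGroup.mk_surjective q
    rw [Nat.card_eq_fintype_card, Fintype.card_subtype]
    refine Finset.card_bij' (fun x _ => y⁻¹ * x) (fun z _ => y * z) ?_ ?_ ?_ ?_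
    · intro x hx
      simp only [Finset.mem_filter, Finset.mem_univ, true_and] at hx ⊢
      exact QuotientGroup.eq.1 hx.symm
    · intro z hz
      simp only [Finset.mem_filter, Finset.mem_univ, true_and] at hz ⊢
      refine (QuotientGroup.eq.2 ?_).symm
      rwa [inv_mul_cancel_left]
    · intro x _
      group
    · intro z _
      group
  rw [Finset.sum_congr rfl fun q _ => h3 q, ← Finset.mul_sum]
  congr 1
  rw [Finset.sum_boole, Nat.card_eq_fintype_card, Fintype.card_subtype]
  simp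

/-- **The lemma of Banaschewski.** -/
lemma bana {S : Type} [Fintype S] (R : AddSubgroup (S → ℤ)) (hmul : ∀ f ∈ R, ∀ f' ∈ R, f * f' ∈ R)
    (h : ∀ (x : S) (p : ℕ), p.Prime → ∃ f ∈ R, ¬ (p : ℤ) ∣ f x) : (1 : S → ℤ) ∈ R := by
  have h1 : ∀ x : S, ∃ f ∈ R, f x = 1 := by
    intro x
    let I : AddSubgroup ℤ := R.map (Pi.evalAddMonoidHom (fun _ : S => ℤ) x)
    obtain ⟨a, ha⟩ := Int.subgroup_cyclic I
    have hmem : ∀ f ∈ R, f x ∈ I := fun f hf => ⟨f, hf, rfl⟩
    have hdvd : ∀ f ∈ R, a ∣ f x := by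
      intro f hf
      have := hmem f hf
      rw [ha, AddSubgroup.mem_closure_singleton] at this
      obtain ⟨n, hn⟩ := this
      exact ⟨n, by rw [← hn]; simp [mul_comm]⟩
    have hunit : a.natAbs = 1 := by
      by_contra hne
      obtain ⟨p, hp, hpa⟩ := Nat.exists_prime_and_dvd hne
      obtain ⟨f, hf, hnd⟩ := h x p hp
      exact hnd ((Int.natCast_dvd.2 hpa).trans (hdvd f hf))
    have h1I : (1 : ℤ) ∈ I := by
      rw [ha, AddSubgroup.mem_closure_singleton]
      rcases Int.natAbs_eq a with h2 | h2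
      · exact ⟨1, by rw [h2, hunit]; simp⟩
      · exact ⟨-1, by rw [h2, hunit]; simp⟩
    obtain ⟨f, hf, hfx⟩ := h1I
    exact ⟨f, hf, hfx⟩
  choose f hf hfx using h1
  have h2 : ∀ T : Finset S, ∃ r ∈ R, ∏ x ∈ T, (1 - f x) = 1 - r := by
    intro T
    induction T using Finset.induction_on with
    | empty => exact ⟨0, R.zero_mem, by simp⟩
    | insert x T hx ih =>
      obtain ⟨r, hr, he⟩ := ih
      refine ⟨r + f x - f x * r, R.sub_mem (R.add_mem hr (hf x)) (hmul _ (hf x) _ hr), ?_⟩
      rw [Finset.prod_insert hx, he]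
      ring
  obtain ⟨r, hr, he⟩ := h2 Finset.univ
  have h3 : ∏ x ∈ Finset.univ, (1 - f x) = 0 := by
    funext y
    rw [Finset.prod_apply]
    apply Finset.prod_eq_zero (Finset.mem_univ y)
    simp [hfx]
  rw [h3] at he
  rw [sub_eq_zero.1 he.symm]
  exact hr

end Pool.Agent.V8H87.EB.Br
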