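import Pool.Agent.V8H87.EB.Br.Brauer
import Pool.Agent.V8H87.EB.Abn

/-!
# Q1 and elementary groups
-/

set_option autoImplicit false

open scoped Classical

namespace Pool.Agent.V8H87.EB

variable {k N : Type} [Field k] [Field N] [NumberField k] [NumberField N] [Algebra k N]
  [FiniteDimensional k N] {w : ℕ}

/-- the reduction to elementary groups -/
theorem Borel.q1_of_elementary (D : Borel k N w)
    (h : ∀ V W : Subgroup (N ≃ₐ[k] N), Br.Elem V → W ≤ V → Q1 D V W)
    (U W : Subgroup (N ≃ₐ[k] N)) : Q1 D U W := by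
  intro E _ _ χ _
  apply D.comp_descent
  obtain ⟨ι, _, V, φ, n, h1, h2⟩ := Br.brauer U
    ((Units.map (algebraMap E (AlgebraicClosure E) : E →* AlgebraicClosure E)).comp χ)
  refine D.closure (AlgebraicClosure E) V φ n (fun i => ?_) U _ h2
  refine h (V i) ⊥ (h1 i) bot_le (AlgebraicClosure E) (φ i) ?_
  intro u hu
  have : u = 1 := Subtype.ext (Subgroup.mem_bot.1 hu)
  rw [this, map_one]

end Pool.Agent.V8H87.EB
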