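import Pool.Agent.V8H87.EB.Br.Perm

/-!
# Quasi-elementary subgroups and the theorem of Solomon
-/

set_option autoImplicit false

open scoped Classical

namespace Pool.Agent.V8H87.EB.Br

open Finset

/-- `H` is quasi-elementary: it has a cyclic normal subgroup `C` of order prime to `p` such that
`H / C` is a `p`-group. -/
def QE {G : Type} [Group G] (H : Subgroup G) : Prop :=
  ∃ (p : ℕ) (C : Subgroup G), p.Prime ∧ C ≤ H ∧ IsCyclic C ∧ (Nat.card C).Coprime p ∧
    (∀ h ∈ H, ∀ c ∈ C, h * c * h⁻¹ ∈ C) ∧ ∀ h ∈ H, ∃ j : ℕ, h ^ (p ^ j) ∈ C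

lemma QE.of_le {G : Type} [Group G] {H K : Subgroup G} (hH : QE H) (hK : K ≤ H) : QE K := by
  obtain ⟨p, C, hp, hC, hcyc, hcop, hn, hj⟩ := hH
  refine ⟨p, C ⊓ K, hp, inf_le_right, ?_, ?_, ?_, ?_⟩
  · exact isCyclic_of_injective (Subgroup.inclusion (inf_le_left : C ⊓ K ≤ C))
      (Subgroup.inclusion_injective _)
  · exact Nat.Coprime.coprime_dvd_left (Subgroup.card_dvd_of_le (inf_le_left : C ⊓ K ≤ C)) hcop
  · rintro h hh c ⟨hc, hc'⟩
    exact ⟨hn h (hK hh) c hc, K.mul_mem (K.mul_mem hh hc') (K.inv_mem hh)⟩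
  · intro h hh
    obtain ⟨j, hj'⟩ := hj h (hK hh)
    exact ⟨j, hj', K.pow_mem hh _⟩

lemma QE.map {G G' : Type} [Group G] [Group G'] (f : G →* G') (hf : Function.Injective f)
    {H : Subgroup G} (hH : QE H) : QE (H.map f) := by
  obtain ⟨p, C, hp, hC, hcyc, hcop, hn, hj⟩ := hH
  refine ⟨p, C.map f, hp, Subgroup.map_mono hC, ?_, ?_, ?_, ?_⟩
  · exact isCyclic_of_surjective (C.equivMapOfInjective f hf) (C.equivMapOfInjective f hf).surjective
  · rwa [← Nat.card_congr (C.equivMapOfInjective f hf).toEquiv]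
  · rintro _ ⟨h, hh, rfl⟩ _ ⟨c, hc, rfl⟩
    exact ⟨h * c * h⁻¹, hn h hh c hc, by simp⟩
  · rintro _ ⟨h, hh, rfl⟩
    obtain ⟨j, hj'⟩ := hj h hh
    exact ⟨j, h ^ (p ^ j), hj', by simp⟩

lemma QE.comap {G G' : Type} [Group G] [Group G'] (f : G →* G') (hf : Function.Injective f)
    {H : Subgroup G'} (hH : QE H) : QE (H.comap f) := by
  obtain ⟨p, C, hp, hC, hcyc, hcop, hn, hj⟩ := hH.of_le (inf_le_left : H ⊓ f.range ≤ H)
  refine ⟨p, C.comap f, hp, fun x hx => (hC hx).1, ?_, ?_, ?_, ?_⟩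
  · refine isCyclic_of_injective ((f.comp (C.comap f).subtype).codRestrict C (fun x => x.2)) ?_
    intro x y h
    exact Subtype.ext (hf (congrArg Subtype.val h))
  · have h1 : (C.comap f).map f = C := by
      rw [Subgroup.map_comap_eq, inf_eq_right]
      exact fun x hx => (hC hx).2
    have h2 := Nat.card_congr ((C.comap f).equivMapOfInjective f hf).toEquiv
    rw [h2, h1]
    exact hcop
  · intro h hh c hc
    change f (h * c * h⁻¹) ∈ C
    rw [map_mul, map_mul, map_inv]
    exact hn (f h) ⟨hh, h, rfl⟩ (f c) hc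
  · intro h hh
    obtain ⟨j, hj'⟩ := hj (f h) ⟨hh, h, rfl⟩
    refine ⟨j, ?_⟩
    change f (h ^ (p ^ j)) ∈ C
    rwa [map_pow]

variable {G : Type} [Group G] [Fintype G]

/-- the fixed points of `x` and of its `p'`-part -/
lemma pc_modEq (H : Subgroup G) {p : ℕ} (hp : p.Prime) (x c y : G) (hx : x = c * y)
    (hc : c ∈ Subgroup.zpowers x) (hy : y ∈ Subgroup.zpowers x) (j : ℕ) (hj : y ^ (p ^ j) = 1) :
    ((Nat.card {q : G ⧸ H // c • q = q} : ℕ)) ≡ Nat.card {q : G ⧸ H // x • q = q} [MOD p] := by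
  haveI : Fact p.Prime := ⟨hp⟩
  have hcomm : ∀ u ∈ Subgroup.zpowers y, c * u = u * c := by
    intro u hu
    have hu' : u ∈ Subgroup.zpowers x := (Subgroup.zpowers_le.2 hy) hu
    obtain ⟨a, rfl⟩ := hc
    obtain ⟨b, rfl⟩ := hu'
    exact (Commute.refl x).zpow_zpow a b
  letI : MulAction (Subgroup.zpowers y) {q : G ⧸ H // c • q = q} :=
    { smul := fun u q => ⟨(u : G) • q.1, by
        rw [← mul_smul, hcomm u u.2, mul_smul, q.2]⟩
      one_smul := fun q => Subtype.ext (one_smul G q.1)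
      mul_smul := fun u v q => Subtype.ext (mul_smul (u : G) (v : G) q.1) }
  have hval : ∀ (u : Subgroup.zpowers y) (q : {q : G ⧸ H // c • q = q}),
      ((u • q : {q : G ⧸ H // c • q = q}) : G ⧸ H) = (u : G) • q.1 := fun _ _ => rfl
  have hpg : IsPGroup p (Subgroup.zpowers y) := by
    rintro ⟨u, hu⟩
    obtain ⟨a, rfl⟩ := hu
    refine ⟨j, Subtype.ext ?_⟩
    change (y ^ a) ^ (p ^ j) = 1
    rw [← zpow_natCast, zpow_comm, zpow_natCast, hj, one_zpow]
  have h1 := hpg.card_modEq_card_fixedPoints {q : G ⧸ H // c • q = q}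
  refine h1.trans ?_
  have h2 : Nat.card (MulAction.fixedPoints (Subgroup.zpowers y) {q : G ⧸ H // c • q = q}) =
      Nat.card {q : G ⧸ H // x • q = q} := by
    have hstab : ∀ q : G ⧸ H, x • q = q → ∀ z ∈ Subgroup.zpowers x, z • q = q := by
      intro q hq z hz
      have : x ∈ MulAction.stabilizer G q := hq
      exact (Subgroup.zpowers_le.2 this) hz
    refine Nat.card_congr ⟨fun q => ⟨q.1.1, ?_⟩, fun q => ⟨⟨q.1, hstab q.1 q.2 c hc⟩, ?_⟩, ?_, ?_⟩
    · have h3 := q.2 ⟨y, Subgroup.mem_zpowers y⟩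
      have h4 := congrArg Subtype.val h3
      rw [hval] at h4
      change x • q.1.1 = q.1.1
      rw [hx, mul_smul, h4, q.1.2]
    · intro u
      apply Subtype.ext
      rw [hval]
      exact hstab q.1 q.2 _ ((Subgroup.zpowers_le.2 hy) u.2)
    · intro q
      rfl
    · intro q
      rfl
  rw [h2]

/-- a quasi-elementary subgroup with a number of fixed points prime to `p` -/
lemma exists_QE {p : ℕ} (hp : p.Prime) (c : G) (hc : (orderOf c).Coprime p) :
    ∃ H : Subgroup G, QE H ∧ ¬ p ∣ Nat.card {q : G ⧸ H // c • q = q} := by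
  haveI : Fact p.Prime := ⟨hp⟩
  set C := Subgroup.zpowers c with hC
  set M := Subgroup.normalizer (C : Set G) with hM
  have hCM : C ≤ M := Subgroup.le_normalizer
  haveI hCn : (C.subgroupOf M).Normal := Subgroup.normal_in_normalizer
  obtain ⟨P⟩ : Nonempty (Sylow p M) := inferInstance
  set H' : Subgroup M := C.subgroupOf M ⊔ (P : Subgroup M) with hH'
  set H : Subgroup G := H'.map M.subtype with hH
  have hHM : H ≤ M := by
    rintro _ ⟨h, _, rfl⟩
    exact h.2
  have hCH : C ≤ H := by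
    rw [← Subgroup.map_subgroupOf_eq_of_le hCM]
    exact Subgroup.map_mono le_sup_left
  have hcardC : Nat.card C = orderOf c := Nat.card_zpowers c
  -- `p`-powers
  have hpow : ∀ h ∈ H, ∃ j : ℕ, h ^ (p ^ j) ∈ C := by
    rintro _ ⟨h, hh, rfl⟩
    obtain ⟨a, ha, u, hu, rfl⟩ := Subgroup.mem_sup_of_normal_left.1 hh
    obtain ⟨j, hj⟩ := P.isPGroup' ⟨u, hu⟩
    have hj' : u ^ (p ^ j) = 1 := congrArg Subtype.val hj
    refine ⟨j, ?_⟩
    have h1 : (a * u) ^ (p ^ j) ∈ C.subgroupOf M := by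
      rw [← QuotientGroup.eq_one_iff, QuotientGroup.mk_pow, QuotientGroup.mk_mul,
        (QuotientGroup.eq_one_iff a).2 ha, one_mul, ← QuotientGroup.mk_pow, hj',
        QuotientGroup.mk_one]
    exact h1
  refine ⟨H, ⟨p, C, hp, hCH, inferInstance, by rwa [hcardC], ?_, hpow⟩, ?_⟩
  · intro h hh a ha
    exact (Subgroup.mem_normalizer_iff.1 (hHM hh) a).1 ha
  -- the fixed points
  have hfix : ∀ g : G, c • (g : G ⧸ H) = (g : G ⧸ H) ↔ g ∈ M := by
    intro g
    rw [MulAction.Quotient.smul_coe, smul_eq_mul, eq_comm, QuotientGroup.eq]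
    constructor
    · intro hd
      rw [← mul_assoc] at hd
      have hmaps : g⁻¹ * c * g ∈ C := by
        obtain ⟨j, hj⟩ := hpow _ hd
        have ho : orderOf (g⁻¹ * c * g) = orderOf c := by
          have := orderOf_injective (MulAut.conj g⁻¹).toMonoidHom (MulAut.conj g⁻¹).injective c
          simpa using this
        obtain ⟨m, hm⟩ := exists_pow_eq_self_of_coprime (x := g⁻¹ * c * g) (n := p ^ j)
          (by rw [ho]; exact (hc.pow_right j).symm)
        rw [← hm]
        exact pow_mem hj m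
      have hmaps' : ∀ z ∈ C, g⁻¹ * z * g ∈ C := by
        rintro z ⟨a, rfl⟩
        have h1 : g⁻¹ * c ^ a * g = (g⁻¹ * c * g) ^ a := by
          have := (map_zpow (MulAut.conj g⁻¹).toMonoidHom c a)
          simpa using this
        change g⁻¹ * c ^ a * g ∈ C
        rw [h1]
        exact zpow_mem hmaps a
      let f : C → C := fun z => ⟨g⁻¹ * z * g, hmaps' z z.2⟩
      have hf : Function.Injective f := by
        intro z z' h
        have h1 : g⁻¹ * (z : G) * g = g⁻¹ * z' * g := congrArg Subtype.val h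
        exact Subtype.ext (mul_left_cancel (mul_right_cancel h1))
      have hfs := Finite.injective_iff_surjective.1 hf
      rw [← inv_mem_iff, hM, Subgroup.mem_normalizer_iff]
      intro z
      rw [inv_inv]
      constructor
      · exact hmaps' z
      · intro hz
        obtain ⟨z', hz'⟩ := hfs ⟨g⁻¹ * z * g, hz⟩
        have h1 : g⁻¹ * (z' : G) * g = g⁻¹ * z * g := congrArg Subtype.val hz'
        rw [← mul_left_cancel (mul_right_cancel h1)]
        exact z'.2
    · intro hg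
      rw [← mul_assoc]
      apply hCH
      have h1 := (Subgroup.mem_normalizer_iff.1 (inv_mem hg) c).1 (Subgroup.mem_zpowers c)
      rwa [inv_inv] at h1
  have hmemH : ∀ n : M, (n : G) ∈ H ↔ n ∈ H' := by
    intro n
    constructor
    · rintro ⟨m, hm, he⟩
      have : m = n := Subtype.ext he
      rwa [← this]
    · intro hn
      exact ⟨n, hn, rfl⟩
  have hcount : Nat.card {q : G ⧸ H // c • q = q} = H'.index := by
    symm
    rw [Subgroup.index]
    refine Nat.card_congr (Equiv.ofBijective (fun q : M ⧸ H' =>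
      (⟨Quotient.liftOn' q (fun n : M => ((n : G) : G ⧸ H)) ?_, ?_⟩ :
        {q : G ⧸ H // c • q = q})) ⟨?_, ?_⟩)
    · intro a b hab
      rw [QuotientGroup.leftRel_apply] at hab
      refine QuotientGroup.eq.2 ?_
      exact (hmemH (a⁻¹ * b)).2 hab
    · obtain ⟨n, rfl⟩ := QuotientGroup.mk_surjective q
      exact (hfix n).2 n.2
    · intro q q' h
      obtain ⟨n, rfl⟩ := QuotientGroup.mk_surjective q
      obtain ⟨n', rfl⟩ := QuotientGroup.mk_surjective q'
      have h1 : ((n : G) : G ⧸ H) = ((n' : G) : G ⧸ H) := congrArg Subtype.val h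
      refine QuotientGroup.eq.2 ?_
      exact (hmemH (n⁻¹ * n')).1 (QuotientGroup.eq.1 h1)
    · rintro ⟨q, hq⟩
      obtain ⟨g, rfl⟩ := QuotientGroup.mk_surjective q
      exact ⟨((⟨g, (hfix g).1 hq⟩ : M) : M ⧸ H'), Subtype.ext rfl⟩
  rw [hcount]
  intro hdvd
  exact P.not_dvd_index (hdvd.trans (Subgroup.index_dvd_of_le le_sup_right))

/-- the `p'`-part -/
lemma exists_parts {p : ℕ} (hp : p.Prime) (x : G) : ∃ (c y : G) (j : ℕ), x = c * y ∧
    c ∈ Subgroup.zpowers x ∧ y ∈ Subgroup.zpowers x ∧ y ^ (p ^ j) = 1 ∧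
      (orderOf c).Coprime p := by
  obtain ⟨e, m, hm, hn⟩ := Nat.exists_eq_pow_mul_and_not_dvd (orderOf_pos x).ne' p hp.ne_one
  have hcop : IsCoprime ((p ^ e : ℕ) : ℤ) (m : ℤ) := by
    rw [Nat.isCoprime_iff_coprime]
    exact (Nat.Coprime.pow_left e ((Nat.Prime.coprime_iff_not_dvd hp).2 hm))
  obtain ⟨u, v, huv⟩ := hcop
  refine ⟨x ^ (u * ((p ^ e : ℕ) : ℤ)), x ^ (v * (m : ℤ)), e, ?_, ⟨_, rfl⟩, ⟨_, rfl⟩, ?_, ?_⟩
  · rw [← zpow_add, huv, zpow_one]
  · rw [← zpow_natCast, ← zpow_mul]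
    have h1 : v * (m : ℤ) * ((p ^ e : ℕ) : ℤ) = ((orderOf x : ℕ) : ℤ) * v := by
      rw [hn]
      push_cast
      ring
    rw [h1, zpow_mul, zpow_natCast, pow_orderOf_eq_one, one_zpow]
  · have h2 : (x ^ (u * ((p ^ e : ℕ) : ℤ))) ^ m = 1 := by
      rw [← zpow_natCast, ← zpow_mul]
      have h1 : u * ((p ^ e : ℕ) : ℤ) * (m : ℤ) = ((orderOf x : ℕ) : ℤ) * u := by
        rw [hn]
        push_cast
        ring
      rw [h1, zpow_mul, zpow_natCast, pow_orderOf_eq_one, one_zpow]
    refine Nat.Coprime.coprime_dvd_left (orderOf_dvd_of_pow_eq_one h2) ?_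
    exact ((Nat.Prime.coprime_iff_not_dvd hp).2 hm).symm

/-- **The theorem of Solomon.** The trivial character is an integral combination of the permutation
characters of the quasi-elementary subgroups. -/
theorem solomon : (1 : G → ℤ) ∈ AddSubgroup.closure {f | ∃ H : Subgroup G, QE H ∧ f = pc H} := by
  apply bana
  · intro f hf f' hf'
    induction hf using AddSubgroup.closure_induction with
    | mem f hf =>
      obtain ⟨H, hH, rfl⟩ := hf
      induction hf' using AddSubgroup.closure_induction with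
      | mem f' hf' =>
        obtain ⟨K, hK, rfl⟩ := hf'
        have h1 : pc H * pc K = ∑ ω : MulAction.orbitRel.Quotient G ((G ⧸ H) × (G ⧸ K)),
            pc (MulAction.stabilizer G (Quotient.out ω)) := by
          funext g
          rw [Pi.mul_apply, pc_mul, Finset.sum_apply]
        rw [h1]
        refine AddSubgroup.sum_mem _ fun ω _ => AddSubgroup.subset_closure ⟨_, ?_, rfl⟩
        obtain ⟨x, hx⟩ := QuotientGroup.mk_surjective (Quotient.out ω).1
        refine (hH.map (MulAut.conj x).toMonoidHom (MulAut.conj x).injective).of_le ?_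
        intro g hg
        have h2 : g • (x : G ⧸ H) = (x : G ⧸ H) := by
          rw [hx]
          exact congrArg Prod.fst hg
        rw [MulAction.Quotient.smul_coe, smul_eq_mul, eq_comm, QuotientGroup.eq] at h2
        exact ⟨x⁻¹ * (g * x), h2, by simp [mul_assoc]⟩
      | zero => rw [mul_zero]; exact zero_mem _
      | add a b _ _ ha hb => rw [mul_add]; exact add_mem ha hb
      | neg a _ ha => rw [mul_neg]; exact neg_mem ha
    | zero => rw [zero_mul]; exact zero_mem _
    | add a b _ _ ha hb => rw [add_mul]; exact add_mem ha hb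
    | neg a _ ha => rw [neg_mul]; exact neg_mem ha
  · intro x p hp
    obtain ⟨c, y, j, hx, hc, hy, hj, hcop⟩ := exists_parts hp x
    obtain ⟨H, hH, hnd⟩ := exists_QE hp c hcop
    refine ⟨pc H, AddSubgroup.subset_closure ⟨H, hH, rfl⟩, ?_⟩
    unfold pc
    rw [Int.natCast_dvd_natCast]
    intro hd
    apply hnd
    have h1 := pc_modEq H hp x c y hx hc hy j hj
    exact (Nat.modEq_zero_iff_dvd.1 (h1.trans (Nat.modEq_zero_iff_dvd.2 hd)))

end Pool.Agent.V8H87.EB.Br
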